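import Mathlib

set_option autoImplicit false

namespace Pool.Agent.H235R3.NORE

theorem LI {k V ι B : Type} [Field k] [AddCommGroup V] [Module k V] (s : Finset ι)
    (c : ι → (B →₀ k)) (hc : LinearIndependent k c) (l : ι → V)
    (h : ∀ β : B, ∑ i ∈ s, c i β • l i = 0) : ∀ i ∈ s, l i = 0 := by
  intro i hi
  rw [← Module.forall_dual_apply_eq_zero_iff k (l i)]
  intro f
  have h1 : ∑ j ∈ s, f (l j) • c j = 0 := by
    ext β
    rw [Finsupp.finsetSum_apply, Finsupp.zero_apply]
    have h2 := congrArg f (h β)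
    rw [map_sum, map_zero] at h2
    rw [← h2]
    refine Finset.sum_congr rfl fun j _ => ?_
    rw [Finsupp.smul_apply, map_smul, smul_eq_mul, smul_eq_mul, mul_comm]
  exact linearIndependent_iff'.1 hc s (fun j => f (l j)) h1 i hi

end Pool.Agent.H235R3.NORE
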